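import Pool.Agent.Helper21.W4.St3

/-!
# Project W4, module N0: four small numeric lemmas
-/

set_option autoImplicit false

namespace Pool.Agent.Helper98.W4

open Pool.Agent.Helper21.W4 Finset

theorem hNmono : StNmono := by
  intro Z V Z' V' hG hZ hV
  by_cases h : Z' ≤ 0
  · exact Or.inl h
  · right
    rcases hG with h1 | h1
    · omega
    · nlinarith

theorem hNnf : StNnf := by
  intro Zp Vp Z' V' k hG hVp hk0 hk3 hZ hV
  by_cases h : Z' ≤ 0
  · exact Or.inl h
  · right
    rcases hG with h1 | h1
    · omega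
    · have hZ' : 1 ≤ Z' := by omega
      have hb : Z' ^ 2 ≤ (Zp - 3 * k) ^ 2 := by nlinarith
      interval_cases k
      · nlinarith
      · rcases (by omega : Zp = 4 ∨ 5 ≤ Zp) with h2 | h2
        · subst h2
          nlinarith
        · nlinarith
      · have h2 : 7 ≤ Zp := by omega
        nlinarith
      · have h2 : 10 ≤ Zp := by omega
        nlinarith

theorem hNeps : StNeps := by
  intro Z V Z' V' hG hZ hV hZ' hV'
  by_cases h : Z' ≤ 0
  · exact Or.inl h
  · right
    rcases hG with h1 | h1
    · have h2 : Z' ≤ 2 := by omega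
      nlinarith
    · rcases le_or_gt Z 0 with h3 | h3
      · have h2 : Z' ≤ 2 := by omega
        nlinarith
      · nlinarith

theorem hNstar : StNstar := by
  intro x hB hG
  have hkm : (x.κ : ℤ) ≤ x.m := by exact_mod_cast hB.km
  have hk : (0 : ℤ) ≤ x.κ := Int.natCast_nonneg _
  unfold Good Zx Vx at hG
  unfold TgtN
  generalize (x.κ : ℤ) = K at *
  generalize (x.m : ℤ) = m at *
  generalize (x.N : ℤ) = N at *
  rcases hG with h | h
  · nlinarith
  · nlinarith [sq_nonneg (m - N + K - 4 - 2 * K)]

end Pool.Agent.Helper98.W4
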